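import Pool.Agent.MP_5c967c_co.H80.Up

/-! The packing density of the regular heptagon is the density of its double-lattice packing. -/

namespace Pool.Agent.Results.MP_5c967c_co.Heptagon

open Pool.Agent.MP_5c967c_co.H46

theorem result :
    packingDensity (convexHull ℝ (Set.range fun k : Fin 7 =>
      (!₂[Real.cos (2 * Real.pi * k / 7), Real.sin (2 * Real.pi * k / 7)] :
        EuclideanSpace ℝ (Fin 2)))) =
      ENNReal.ofReal
        (2 / 97 * (-111 + 492 * Real.cos (Real.pi / 7) - 356 * Real.cos (Real.pi / 7) ^ 2)) :=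
  Pool.Agent.MP_5c967c_co.H80.main

end Pool.Agent.Results.MP_5c967c_co.Heptagon
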