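import Pool.Agent.MP_5c967c_co.H80L.M

/-! The regular heptagon is a local minimiser of the packing density among convex discs. -/

namespace Pool.Agent.Results.MP_5c967c_co.LocalMin

open Pool.Agent.MP_5c967c_co.H46

theorem result (H : Set Plane)
    (hH : H = convexHull ℝ (Set.range fun k : Fin 7 =>
      (!₂[Real.cos (2 * Real.pi * k / 7), Real.sin (2 * Real.pi * k / 7)] :
        EuclideanSpace ℝ (Fin 2)))) :
    ∃ ε > 0, ∀ (C : Set Plane) (S : Plane ≃ᵃ[ℝ] Plane), IsCompact C → Convex ℝ C →
      (interior C).Nonempty → Metric.hausdorffDist (S '' C) H < ε →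
      packingDensity H ≤ packingDensity C ∧
        (packingDensity C = packingDensity H → ∃ T : Plane ≃ᵃ[ℝ] Plane, C = T '' H) :=
  hH ▸ Pool.Agent.MP_5c967c_co.H80L.main

end Pool.Agent.Results.MP_5c967c_co.LocalMin
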