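import Pool.Agent.MP_5c967c_co.H80R.Main

/-! The regular heptagon minimises the packing density among the convex discs which have an
affine image with a nontrivial rotational symmetry. -/

namespace Pool.Agent.Results.MP_5c967c_co.RotationalMin

open Pool.Agent.MP_5c967c_co.H46

/-- the regular heptagon -/
def heptagon : Set Plane :=
  convexHull ℝ (Set.range fun k : Fin 7 =>
    (!₂[Real.cos (2 * Real.pi * k / 7), Real.sin (2 * Real.pi * k / 7)] : Plane))

/-- the rotation about the origin by the angle `θ` -/
noncomputable def rot (θ : ℝ) (x : Plane) : Plane :=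
  !₂[Real.cos θ * x 0 - Real.sin θ * x 1, Real.sin θ * x 0 + Real.cos θ * x 1]

theorem result (C : Set Plane) (hc : IsCompact C) (hv : Convex ℝ C) (hne : (interior C).Nonempty)
    (S : Plane ≃ᵃ[ℝ] Plane) (θ : ℝ) (hθ : ∀ k : ℤ, θ ≠ k * (2 * Real.pi))
    (hs : ∀ x : Plane, x ∈ S '' C ↔ rot θ x ∈ S '' C) :
    packingDensity heptagon ≤ packingDensity C ∧
      (packingDensity C = packingDensity heptagon →
        ∃ T : Plane ≃ᵃ[ℝ] Plane, C = T '' heptagon) :=
  Pool.Agent.MP_5c967c_co.H80R.main C S θ hc hv hne hθ hs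

end Pool.Agent.Results.MP_5c967c_co.RotationalMin
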