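import Pool.Agent.MP_5c967c_co.H44.Link
import Pool.Agent.MP_5c967c_co.H44.All

/-! Every centrally symmetric convex disc has packing density at least 0.9. -/

namespace Pool.Agent.Results.MP_5c967c_co.SymmetricBound

open Pool.Agent.MP_5c967c_co.H46

theorem result (C : Set (EuclideanSpace ℝ (Fin 2))) (hc : IsCompact C) (hv : Convex ℝ C)
    (hne : (interior C).Nonempty) (c : EuclideanSpace ℝ (Fin 2)) (hs : ∀ x ∈ C, c + c - x ∈ C) :
    ENNReal.ofReal (9 / 10) ≤ packingDensity C :=
  Pool.Agent.MP_5c967c_co.H44.main Pool.Agent.MP_5c967c_co.H44.cl_all C hc hv hne c hs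

end Pool.Agent.Results.MP_5c967c_co.SymmetricBound
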